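import Pool.Agent.Helper36.RN.GoalsH

/-! # Project RFn, packet HEX: the heat equation along a framed flow (general dimension) -/

set_option autoImplicit false

namespace Pool.Agent.Helper58.RN

open Set Filter Topology MeasureTheory Pool.Agent.Helper47.RFn Pool.Agent.Helper36.RN
open scoped ContDiff

namespace HEX

variable {n : ℕ}

/-! ### the Laplacian in the rotation fields -/

/-- first order coefficients in the fields `e_l` -/
noncomputable def cc (A : Ix n → Ix n → XS n) (G : Ix n → Ix n → XS n) (l : Ix n) : XS n :=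
  ∑ a, ∑ k, A a k * Ee k (A a l) - ∑ a, ∑ b, G a b * A b l

/-- second order coefficients -/
noncomputable def aa (A : Ix n → Ix n → XS n) (p q : KK n) : XS n :=
  nu p.1 * TC.al A p.2 q.2 * nu q.1

/-- first order coefficients -/
noncomputable def bb' (A : Ix n → Ix n → XS n) (G : Ix n → Ix n → XS n) (q : KK n) : XS n :=
  nu q.1 * cc A G q.2 + ∑ p : KK n, nu p.1 * TC.al A p.2 q.2 * Ld p (nu q.1)

theorem sum_Ee (c : Ix n → XS n) (u : XS n) :
    ∑ l, c l * Ee l u = ∑ q : KK n, nu q.1 * c q.2 * Ld q u := by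
  rw [Fintype.sum_prod_type, Finset.sum_comm]
  refine Finset.sum_congr rfl fun l _ => ?_
  rw [Ee_def, Finset.mul_sum]
  refine Finset.sum_congr rfl fun i _ => ?_
  ring

theorem lap_eq (A : Ix n → Ix n → XS n) (G : Ix n → Ix n → XS n) (u : XS n) :
    (∑ a, FR.Fd (Ee (n := n)) A a (FR.Fd (Ee (n := n)) A a u) - ∑ a, ∑ b, G a b * FR.Fd (Ee (n := n)) A b u) =
      ∑ p, ∑ q, aa A p q * Ld p (Ld q u) + ∑ q, bb' A G q * Ld q u := by
  have h1 : ∀ a, FR.Fd (Ee (n := n)) A a (FR.Fd (Ee (n := n)) A a u) =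
      ∑ k, ∑ l, (A a k * A a l) * Ee k (Ee l u) + ∑ l, (∑ k, A a k * Ee k (A a l)) * Ee l u := by
    intro a
    have e1 : FR.Fd (Ee (n := n)) A a (FR.Fd (Ee (n := n)) A a u) =
        ∑ k, ∑ l, (A a k * A a l * Ee k (Ee l u) + A a k * Ee k (A a l) * Ee l u) := by
      rw [FR.Fd]
      refine Finset.sum_congr rfl fun k _ => ?_
      rw [FR.Fd, map_sum, Finset.mul_sum]
      refine Finset.sum_congr rfl fun l _ => ?_
      rw [Derivation.leibniz, smul_eq_mul, smul_eq_mul]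
      ring
    have e2 : ∑ l, (∑ k, A a k * Ee k (A a l)) * Ee l u =
        ∑ k, ∑ l, A a k * Ee k (A a l) * Ee l u := by
      rw [Finset.sum_comm]
      exact Finset.sum_congr rfl fun l _ => Finset.sum_mul _ _ _
    rw [e1, e2, ← Finset.sum_add_distrib]
    exact Finset.sum_congr rfl fun k _ => Finset.sum_add_distrib
  have h2 : ∑ a, FR.Fd (Ee (n := n)) A a (FR.Fd (Ee (n := n)) A a u) =
      ∑ k, ∑ l, TC.al A k l * Ee k (Ee l u) + ∑ l, (∑ a, ∑ k, A a k * Ee k (A a l)) * Ee l u := by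
    rw [Finset.sum_congr rfl fun a _ => h1 a, Finset.sum_add_distrib]
    congr 1
    · rw [Finset.sum_comm]
      refine Finset.sum_congr rfl fun k _ => ?_
      rw [Finset.sum_comm]
      refine Finset.sum_congr rfl fun l _ => ?_
      rw [TC.al, Finset.sum_mul]
    · rw [Finset.sum_comm]
      refine Finset.sum_congr rfl fun l _ => ?_
      rw [Finset.sum_mul]
  have h3 : ∑ a, ∑ b, G a b * FR.Fd (Ee (n := n)) A b u = ∑ l, (∑ a, ∑ b, G a b * A b l) * Ee l u := by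
    have e1 : ∀ a, ∑ b, G a b * FR.Fd (Ee (n := n)) A b u = ∑ l, (∑ b, G a b * A b l) * Ee l u := by
      intro a
      have e2 : ∑ l, (∑ b, G a b * A b l) * Ee l u = ∑ l, ∑ b, G a b * A b l * Ee l u :=
        Finset.sum_congr rfl fun l _ => Finset.sum_mul _ _ _
      rw [e2, Finset.sum_comm]
      refine Finset.sum_congr rfl fun b _ => ?_
      rw [FR.Fd, Finset.mul_sum]
      refine Finset.sum_congr rfl fun l _ => ?_
      ring
    rw [Finset.sum_congr rfl fun a _ => e1 a, Finset.sum_comm]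
    refine Finset.sum_congr rfl fun l _ => ?_
    rw [Finset.sum_mul]
  have h4 : ∑ k, ∑ l, TC.al A k l * Ee k (Ee l u) =
      ∑ p : KK n, ∑ q : KK n, nu p.1 * TC.al A p.2 q.2 * Ld p (nu q.1 * Ld q u) := by
    have e1 : ∀ k, ∑ l, TC.al A k l * Ee k (Ee l u) =
        ∑ j, nu j * ∑ l, TC.al A k l * Ld (j, k) (Ee l u) := by
      intro k
      have e2 : ∀ l, TC.al A k l * Ee k (Ee l u) =
          ∑ j, TC.al A k l * (nu j * Ld (j, k) (Ee l u)) := by
        intro l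
        rw [Ee_def, Finset.mul_sum]
      rw [Finset.sum_congr rfl fun l _ => e2 l, Finset.sum_comm]
      refine Finset.sum_congr rfl fun j _ => ?_
      rw [Finset.mul_sum]
      refine Finset.sum_congr rfl fun l _ => ?_
      ring
    rw [Finset.sum_congr rfl fun k _ => e1 k, Fintype.sum_prod_type, Finset.sum_comm]
    refine Finset.sum_congr rfl fun j _ => Finset.sum_congr rfl fun k _ => ?_
    rw [Fintype.sum_prod_type, Finset.sum_comm, Finset.mul_sum]
    refine Finset.sum_congr rfl fun l _ => ?_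
    rw [Ee_def, map_sum, Finset.mul_sum, Finset.mul_sum]
    refine Finset.sum_congr rfl fun i _ => ?_
    ring
  have h5 : ∀ p q : KK n, nu p.1 * TC.al A p.2 q.2 * Ld p (nu q.1 * Ld q u) =
      aa A p q * Ld p (Ld q u) + nu p.1 * TC.al A p.2 q.2 * Ld p (nu q.1) * Ld q u := by
    intro p q
    rw [Derivation.leibniz, smul_eq_mul, smul_eq_mul, aa]
    ring
  have h6 : ∑ p : KK n, ∑ q : KK n, nu p.1 * TC.al A p.2 q.2 * Ld p (nu q.1 * Ld q u) =
      ∑ p, ∑ q, aa A p q * Ld p (Ld q u) +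
        ∑ q : KK n, (∑ p : KK n, nu p.1 * TC.al A p.2 q.2 * Ld p (nu q.1)) * Ld q u := by
    have e1 : ∑ p : KK n, ∑ q : KK n, nu p.1 * TC.al A p.2 q.2 * Ld p (nu q.1 * Ld q u) =
        ∑ p : KK n, ∑ q : KK n, aa A p q * Ld p (Ld q u) +
        ∑ p : KK n, ∑ q : KK n, nu p.1 * TC.al A p.2 q.2 * Ld p (nu q.1) * Ld q u := by
      rw [← Finset.sum_add_distrib]
      refine Finset.sum_congr rfl fun p _ => ?_
      rw [← Finset.sum_add_distrib]
      exact Finset.sum_congr rfl fun q _ => h5 p q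
    rw [e1]
    congr 1
    rw [Finset.sum_comm]
    exact Finset.sum_congr rfl fun q _ => (Finset.sum_mul _ _ _).symm
  have h7 : ∑ q, bb' A G q * Ld q u = ∑ l, cc A G l * Ee l u +
      ∑ q : KK n, (∑ p : KK n, nu p.1 * TC.al A p.2 q.2 * Ld p (nu q.1)) * Ld q u := by
    rw [sum_Ee, ← Finset.sum_add_distrib]
    refine Finset.sum_congr rfl fun q _ => ?_
    rw [bb', add_mul]
  have h8 : ∑ l, cc A G l * Ee l u = ∑ l, (∑ a, ∑ k, A a k * Ee k (A a l)) * Ee l u -
      ∑ l, (∑ a, ∑ b, G a b * A b l) * Ee l u := by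
    rw [← Finset.sum_sub_distrib]
    refine Finset.sum_congr rfl fun l _ => ?_
    rw [cc, sub_mul]
  rw [h2, h3, h4, h6, h7, h8]
  ring

/-! ### ellipticity -/

/-- linear algebra -/
theorem ell0 {A θ : Matrix (Ix n) (Ix n) ℝ} (hinv : A * θ = 1) {M : ℝ}
    (hM : ∀ i a, |θ i a| ≤ M) (ξ : Ix n → ℝ) :
    ∑ i, ξ i ^ 2 ≤ ((n : ℝ) + 1) ^ 2 * M ^ 2 * ∑ c, (∑ i, A c i * ξ i) ^ 2 := by
  have h4 : θ * A = 1 := mul_eq_one_comm.1 hinv
  obtain ⟨η, hη⟩ : ∃ η : Ix n → ℝ, η = fun c => ∑ i, A c i * ξ i := ⟨_, rfl⟩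
  have h1 : ∑ c, (∑ i, A c i * ξ i) ^ 2 = ∑ c, η c ^ 2 := by rw [hη]
  have h2 : ∀ i, ξ i = ∑ c, θ i c * η c := by
    intro i
    have h5 : Matrix.mulVec θ (Matrix.mulVec A ξ) = ξ := by
      rw [Matrix.mulVec_mulVec, h4, Matrix.one_mulVec]
    have h6 := congrFun h5 i
    rw [← h6, hη]
    rfl
  have hcard : (Fintype.card (Ix n) : ℝ) = (n : ℝ) + 1 := by simp
  have h3 : ∀ i, ξ i ^ 2 ≤ ((n : ℝ) + 1) * M ^ 2 * ∑ c, η c ^ 2 := by
    intro i
    have h7 : (∑ c, θ i c * η c) ^ 2 ≤ (∑ c, θ i c ^ 2) * ∑ c, η c ^ 2 :=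
      Finset.sum_mul_sq_le_sq_mul_sq _ _ _
    have h8 : ∑ c, θ i c ^ 2 ≤ ((n : ℝ) + 1) * M ^ 2 := by
      have : ∀ c, θ i c ^ 2 ≤ M ^ 2 := fun c => sq_le_sq' (by
        have := abs_le.1 (hM i c); linarith [this.1]) (abs_le.1 (hM i c)).2
      calc ∑ c, θ i c ^ 2 ≤ ∑ _c : Ix n, M ^ 2 := Finset.sum_le_sum fun c _ => this c
        _ = ((n : ℝ) + 1) * M ^ 2 := by
            rw [Finset.sum_const, nsmul_eq_mul, Finset.card_univ, hcard]
    rw [h2 i]
    exact h7.trans (mul_le_mul_of_nonneg_right h8 (Finset.sum_nonneg fun c _ => sq_nonneg _))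
  rw [h1]
  calc ∑ i, ξ i ^ 2 ≤ ∑ _i : Ix n, ((n : ℝ) + 1) * M ^ 2 * ∑ c, η c ^ 2 :=
        Finset.sum_le_sum fun i _ => h3 i
    _ = ((n : ℝ) + 1) ^ 2 * M ^ 2 * ∑ c, η c ^ 2 := by
        rw [Finset.sum_const, nsmul_eq_mul, Finset.card_univ, hcard]
        ring

theorem sum_Ld_sq (f : XS n) (x : Om n) :
    ∑ p, (Ld p f).1 x ^ 2 ≤ 4 * ∑ k, (Ee k f).1 x ^ 2 := by
  have h1 : ∑ i, (nu i).1 x ^ 2 = 1 := by
    have h := congrArg (fun g : XS n => g.1 x) (nu_sq (n := n))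
    simp only [sum_val, one_val] at h
    rw [← h]
    refine Finset.sum_congr rfl fun i _ => ?_
    rw [pow_two, pow_two, mul_val]
  have h2 : ∀ p : KK n, (Ld p f).1 x ^ 2 ≤
      2 * ((nu p.1).1 x ^ 2 * (Ee p.2 f).1 x ^ 2) + 2 * ((nu p.2).1 x ^ 2 * (Ee p.1 f).1 x ^ 2) := by
    intro p
    have h3 : (Ld p f).1 x = (nu p.1).1 x * (Ee p.2 f).1 x - (nu p.2).1 x * (Ee p.1 f).1 x := by
      have h4 := Ld_eq p.1 p.2 f
      have h5 : (p.1, p.2) = p := rfl
      rw [h5] at h4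
      rw [h4, sub_val, mul_val, mul_val]
    rw [h3]
    nlinarith [sq_nonneg ((nu p.1).1 x * (Ee p.2 f).1 x + (nu p.2).1 x * (Ee p.1 f).1 x)]
  refine (Finset.sum_le_sum fun p _ => h2 p).trans (le_of_eq ?_)
  rw [Finset.sum_add_distrib, ← Finset.mul_sum, ← Finset.mul_sum]
  have h6 : ∑ p : KK n, (nu p.1).1 x ^ 2 * (Ee p.2 f).1 x ^ 2 = ∑ k, (Ee k f).1 x ^ 2 := by
    rw [Fintype.sum_prod_type, Finset.sum_comm]
    refine Finset.sum_congr rfl fun k _ => ?_
    change ∑ j, (nu j).1 x ^ 2 * (Ee k f).1 x ^ 2 = _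
    rw [← Finset.sum_mul, h1, one_mul]
  have h7 : ∑ p : KK n, (nu p.2).1 x ^ 2 * (Ee p.1 f).1 x ^ 2 = ∑ k, (Ee k f).1 x ^ 2 := by
    rw [Fintype.sum_prod_type]
    refine Finset.sum_congr rfl fun k _ => ?_
    change ∑ j, (nu j).1 x ^ 2 * (Ee k f).1 x ^ 2 = _
    rw [← Finset.sum_mul, h1, one_mul]
  rw [h6, h7]
  ring

theorem quad (A : Ix n → Ix n → XS n) (f : XS n) (x : Om n) :
    ∑ p, ∑ q, (aa A p q).1 x * (Ld p f).1 x * (Ld q f).1 x =
      ∑ c, (∑ i, (A c i).1 x * (Ee i f).1 x) ^ 2 := by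
  have h1 : ∀ k, (Ee k f).1 x = ∑ j, (nu j).1 x * (Ld (j, k) f).1 x := by
    intro k
    rw [Ee_def, sum_val]
    exact Finset.sum_congr rfl fun j _ => mul_val _ _ _
  have h2 : ∑ p, ∑ q, (aa A p q).1 x * (Ld p f).1 x * (Ld q f).1 x =
      ∑ k, ∑ l, (TC.al A k l).1 x * (Ee k f).1 x * (Ee l f).1 x := by
    have e1 : ∀ p : KK n, ∑ q, (aa A p q).1 x * (Ld p f).1 x * (Ld q f).1 x =
        ((nu p.1).1 x * (Ld p f).1 x) * ∑ l, (TC.al A p.2 l).1 x * (Ee l f).1 x := by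
      intro p
      rw [Fintype.sum_prod_type, Finset.sum_comm, Finset.mul_sum]
      refine Finset.sum_congr rfl fun l _ => ?_
      rw [h1 l, Finset.mul_sum, Finset.mul_sum]
      refine Finset.sum_congr rfl fun i _ => ?_
      rw [aa, mul_val, mul_val]
      ring
    rw [Finset.sum_congr rfl fun p _ => e1 p, Fintype.sum_prod_type, Finset.sum_comm]
    refine Finset.sum_congr rfl fun k _ => ?_
    change ∑ j, (nu j).1 x * (Ld (j, k) f).1 x * ∑ l, (TC.al A k l).1 x * (Ee l f).1 x = _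
    rw [← Finset.sum_mul, ← h1 k, Finset.mul_sum]
    refine Finset.sum_congr rfl fun l _ => ?_
    ring
  rw [h2]
  symm
  have h3 : ∀ k l, (TC.al A k l).1 x = ∑ c, (A c k).1 x * (A c l).1 x := by
    intro k l
    rw [TC.al, sum_val]
    exact Finset.sum_congr rfl fun c _ => mul_val _ _ _
  have h4 : ∀ c, (∑ i, (A c i).1 x * (Ee i f).1 x) ^ 2 =
      ∑ k, ∑ l, (A c k).1 x * (A c l).1 x * ((Ee k f).1 x * (Ee l f).1 x) := by
    intro c
    rw [pow_two, Finset.sum_mul_sum]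
    refine Finset.sum_congr rfl fun k _ => Finset.sum_congr rfl fun l _ => ?_
    ring
  rw [Finset.sum_congr rfl fun c _ => h4 c, Finset.sum_comm]
  refine Finset.sum_congr rfl fun k _ => ?_
  rw [Finset.sum_comm]
  refine Finset.sum_congr rfl fun l _ => ?_
  rw [h3, mul_assoc, Finset.sum_mul]

theorem ellA {A θ : Ix n → Ix n → XS n} {M : ℝ} (hM0 : 0 < M)
    (hinv : ∀ x : Om n, (Matrix.of fun a i => (A a i).1 x) * (Matrix.of fun i a => (θ i a).1 x) = 1)
    (hM : ∀ i a (x : Om n), |(θ i a).1 x| ≤ M) :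
    EllA (1 / (4 * (((n : ℝ) + 1) ^ 2 * M ^ 2))) (aa A) := by
  intro f x
  rw [quad]
  have h1 := ell0 (hinv x) (fun i a => hM i a x) (fun k => (Ee k f).1 x)
  have h2 := sum_Ld_sq f x
  have h3 : (0:ℝ) < 4 * (((n : ℝ) + 1) ^ 2 * M ^ 2) := by positivity
  rw [one_div, inv_mul_le_iff₀ h3]
  simp only [Matrix.of_apply] at h1
  linarith

/-! ### congruence off the origin -/

theorem smfam_congr0 {I : Set ℝ} {f g : ℝ → EE n → ℝ} (h : ∀ t ∈ I, ∀ x, x ≠ 0 → g t x = f t x)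
    (hf : SmFam I f) : SmFam I g := by
  refine ⟨fun t ht => sm_congr (hf.sm t ht) (h t ht), fun w => ?_⟩
  refine (hf.cont w).congr ?_
  rintro ⟨t, x⟩ ⟨ht, hx⟩
  exact Ew_congr (h t ht) w x hx

theorem smfam1_congr0 {I : Set ℝ} {f f' g' : ℝ → EE n → ℝ}
    (h : ∀ t ∈ I, ∀ x, x ≠ 0 → g' t x = f' t x) (hf : SmFam1 I f f') : SmFam1 I f g' := by
  refine ⟨hf.fam, smfam_congr0 h hf.fam', fun w x hx t ht => ?_⟩
  rw [Ew_congr (h t ht) w x hx]
  exact hf.der w x hx t ht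

/-- a smooth family as a curve in the algebra -/
theorem mkXS {τ : ℝ} {F : ℝ → EE n → ℝ} (hF : SmFam (Icc 0 τ) F) (hsfc : R_SFC) :
    ∃ a : ℝ → XS n, CC τ a ∧ ∀ t (ht : t ∈ Icc 0 τ), a t = toXS (F t) (hF.sm t ht) := by
  classical
  refine ⟨fun t => if h : t ∈ Icc 0 τ then toXS (F t) (hF.sm t h) else 0, ?_, fun t ht => ?_⟩
  · refine hsfc n τ _ (smfam_congr0 (f := F) ?_ hF)
    intro t ht x hx
    rw [dif_pos ht]
    exact ext_toXS _ _ hx
  · exact dif_pos ht

end HEX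

open HEX

/-- packet HEX -/
theorem hex : G_HEX := by
  intro hlin hdic hsfc hcv hcda n hn τ A θ hτ hfl f hf
  obtain ⟨-, -, -, -, -, -, -, -, -, -, -, -, kc, kadd, ksub, kmul, kneg, ksmul, kLd, kEe, ksum,
    kcongr, -, kbd⟩ := hcda n τ
  choose xA hAc hAv using fun a i => mkXS (hfl.flA a i).fam hsfc
  choose xt htc htv using fun i a => mkXS (hfl.flt i a).fam hsfc
  -- curves of coefficients
  have hFd : ∀ (a : Ix n) (y : ℝ → XS n), CC τ y →
      CC τ (fun t => FR.Fd (Ee (n := n)) (fun a i => xA a i t) a (y t)) := by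
    intro a y hy
    exact ksum (Ix n) Finset.univ (fun i t => xA a i t * Ee i (y t)) fun i _ =>
      kmul _ _ (hAc a i) (kEe i y hy)
  have hnf : ∀ a : Ix n, CC τ (fun t => FR.nf nu (fun a i => xA a i t) a) := by
    intro a
    exact ksum (Ix n) Finset.univ (fun i t => xA a i t * nu i) fun i _ =>
      kmul _ _ (hAc a i) (kc _)
  have hC : ∀ a b c : Ix n, CC τ (fun t => FR.C (Ee (n := n)) nu (fun a i => xA a i t) (fun i a => xt i a t) a b c) := by
    intro a b c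
    exact kadd _ _ (ksum (Ix n) Finset.univ (fun j t =>
      (FR.Fd (Ee (n := n)) (fun a i => xA a i t) a (xA b j t) - FR.Fd (Ee (n := n)) (fun a i => xA a i t) b (xA a j t))
        * xt j c t) fun j _ =>
      kmul _ _ (ksub _ _ (hFd a _ (hAc b j)) (hFd b _ (hAc a j))) (htc j c))
      (ksub _ _ (kmul _ _ (hnf a) (kc _)) (kmul _ _ (hnf b) (kc _)))
  have hG : ∀ a b c : Ix n,
      CC τ (fun t => FR.Gam (Ee (n := n)) nu (fun a i => xA a i t) (fun i a => xt i a t) a b c) := by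
    intro a b c
    exact ksmul _ _ (kadd _ _ (ksub _ _ (hC a b c) (hC b c a)) (hC c a b))
  have hal : ∀ k l : Ix n, CC τ (fun t => TC.al (fun a i => xA a i t) k l) := by
    intro k l
    exact ksum (Ix n) Finset.univ (fun a t => xA a k t * xA a l t) fun a _ =>
      kmul _ _ (hAc a k) (hAc a l)
  have haa : ∀ p q : KK n, CC τ (fun t => aa (fun a i => xA a i t) p q) := by
    intro p q
    exact kmul _ _ (kmul _ _ (kc _) (hal _ _)) (kc _)
  have hcc : ∀ l : Ix n, CC τ (fun t => cc (fun a i => xA a i t)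
      (fun a b => FR.Gam (Ee (n := n)) nu (fun a i => xA a i t) (fun i a => xt i a t) a a b) l) := by
    intro l
    exact ksub _ _
      (ksum (Ix n) Finset.univ (fun a t => ∑ k, xA a k t * Ee k (xA a l t)) fun a _ =>
        ksum (Ix n) Finset.univ (fun k t => xA a k t * Ee k (xA a l t)) fun k _ =>
          kmul _ _ (hAc a k) (kEe k _ (hAc a l)))
      (ksum (Ix n) Finset.univ (fun a t => ∑ b,
          FR.Gam (Ee (n := n)) nu (fun a i => xA a i t) (fun i a => xt i a t) a a b * xA b l t) fun a _ =>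
        ksum (Ix n) Finset.univ (fun b t =>
          FR.Gam (Ee (n := n)) nu (fun a i => xA a i t) (fun i a => xt i a t) a a b * xA b l t) fun b _ =>
          kmul _ _ (hG a a b) (hAc b l))
  have hbb : ∀ q : KK n, CC τ (fun t => bb' (fun a i => xA a i t)
      (fun a b => FR.Gam (Ee (n := n)) nu (fun a i => xA a i t) (fun i a => xt i a t) a a b) q) := by
    intro q
    exact kadd _ _ (kmul _ _ (kc _) (hcc q.2))
      (ksum (KK n) Finset.univ (fun p t => nu p.1 * TC.al (fun a i => xA a i t) p.2 q.2 *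
        Ld p (nu q.1)) fun p _ => kmul _ _ (kmul _ _ (kc _) (hal _ _)) (kc _))
  -- bound of `θ`
  have hbd : ∃ M : ℝ, 0 < M ∧ ∀ t ∈ Icc 0 τ, ∀ i a (x : Om n), |(xt i a t).1 x| ≤ M := by
    choose M hM using fun i a => kbd _ (htc i a)
    refine ⟨∑ i, ∑ j, |M i j| + 1, by positivity, fun t ht i j x => ?_⟩
    have h1 := (hM i j t ht x).trans (le_abs_self (M i j))
    have h2 : |M i j| ≤ ∑ j, |M i j| :=
      Finset.single_le_sum (f := fun j => |M i j|) (fun j _ => abs_nonneg _) (Finset.mem_univ j)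
    have h3 : ∑ j, |M i j| ≤ ∑ i, ∑ j, |M i j| :=
      Finset.single_le_sum (f := fun i => ∑ j, |M i j|)
        (fun i _ => Finset.sum_nonneg fun j _ => abs_nonneg _) (Finset.mem_univ i)
    linarith
  obtain ⟨M, hM0, hM⟩ := hbd
  have hell : ∀ t ∈ Icc 0 τ, EllA (1 / (4 * (((n : ℝ) + 1) ^ 2 * M ^ 2)))
      (fun p q => aa (fun a i => xA a i t) p q) := by
    intro t ht
    refine ellA (θ := fun i a => xt i a t) hM0 ?_ (fun i a x => hM t ht i a x)
    intro x
    have e1 : (Matrix.of fun a i => (xA a i t).1 x) = A t x.1 := by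
      ext a i
      rw [Matrix.of_apply, hAv a i t ht]
      rfl
    have e2 : (Matrix.of fun i a => (xt i a t).1 x) = θ t x.1 := by
      ext i a
      rw [Matrix.of_apply, htv i a t ht]
      rfl
    rw [e1, e2]
    exact hfl.inv t ht x.1
  obtain ⟨y, hy0, hy⟩ := hlin n (by omega) τ (1 / (4 * (((n : ℝ) + 1) ^ 2 * M ^ 2)))
    (fun p q t => aa (fun a i => xA a i t) p q)
    (fun q t => bb' (fun a i => xA a i t)
      (fun a b => FR.Gam (Ee (n := n)) nu (fun a i => xA a i t) (fun i a => xt i a t) a a b) q)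
    (toXS f hf) hτ (by positivity) haa hbb hell
  refine ⟨fun t => ext (y t).1, ?_, fun x hx => ?_⟩
  · refine smfam1_congr0 ?_ (hcv n τ y _ hy)
    intro t ht x hx
    have hsA : ∀ a i, Sm (fun x => A t x a i) := fun a i => (hfl.flA a i).fam.sm t ht
    have hst : ∀ i a, Sm (fun x => θ t x i a) := fun i a => (hfl.flt i a).fam.sm t ht
    have h1 := (hdic n (A t) (θ t) hsA hst).2.2.2.2.2 (ext (y t).1) (sm (y t)) ⟨x, hx⟩
    have h2 : toXS (ext (y t).1) (sm (y t)) = y t := XS_ext fun z => ext_apply _ _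
    have h3 : (fun a i => toXS (fun x => A t x a i) (hsA a i)) = fun a i => xA a i t := by
      funext a i
      exact (hAv a i t ht).symm
    have h4 : (fun i a => toXS (fun x => θ t x i a) (hst i a)) = fun i a => xt i a t := by
      funext i a
      exact (htv i a t ht).symm
    rw [h2, h3, h4] at h1
    have h5 := lap_eq (fun a i => xA a i t)
      (fun a b => FR.Gam (Ee (n := n)) nu (fun a i => xA a i t) (fun i a => xt i a t) a a b) (y t)
    rw [h5] at h1
    rw [ext_of_ne _ hx]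
    exact h1
  · change ext (y 0).1 x = f x
    rw [hy0]
    exact ext_toXS f hf hx

end Pool.Agent.Helper58.RN
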