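import Pool.Agent.Helper36.RN.Goals

/-! # Project RFn, packet ELL: elliptic energy estimate (general dimension) -/

namespace Pool.Agent.Helper58.RN

open Set Filter Topology MeasureTheory Pool.Agent.Helper47.RFn Pool.Agent.Helper36.RN
open scoped ContDiff

variable {n : ℕ}

/-- Young's inequality -/
theorem young (t : ℝ) (ht : 0 < t) (x y : XS n) :
    |ip x y| ≤ t / 2 * ip x x + 1 / (2 * t) * ip y y := by
  have h1 : ∀ s : ℝ, s ^ 2 = 1 → -(s * ip x y) ≤ t / 2 * ip x x + 1 / (2 * t) * ip y y := by
    intro s hs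
    have h2 := ip_nonneg (t • x + s • y)
    have h3 : ip (t • x + s • y) (t • x + s • y) =
        t ^ 2 * ip x x + 2 * t * (s * ip x y) + s ^ 2 * ip y y := by
      simp only [map_add, LinearMap.add_apply, map_smul, LinearMap.smul_apply, smul_eq_mul]
      rw [ip_comm y x]
      ring
    rw [h3, hs] at h2
    have h4 : t / 2 * ip x x + 1 / (2 * t) * ip y y + s * ip x y =
        (t ^ 2 * ip x x + 2 * t * (s * ip x y) + 1 * ip y y) / (2 * t) := by
      field_simp
      ring
    have h5 : 0 ≤ (t ^ 2 * ip x x + 2 * t * (s * ip x y) + 1 * ip y y) / (2 * t) := by positivity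
    linarith
  rw [abs_le]
  constructor
  · have := h1 1 (by norm_num)
    linarith
  · have := h1 (-1) (by norm_num)
    linarith

theorem Wle_succ (m : ℕ) : (Wle (m + 1) : Finset (List (KK n))) =
    insert [] ((Finset.univ ×ˢ Wle m).image (fun p : KK n × List (KK n) => p.1 :: p.2)) := by
  ext w
  rw [mem_Wle, Finset.mem_insert, Finset.mem_image]
  constructor
  · intro h
    cases w with
    | nil => exact Or.inl rfl
    | cons i w =>
      right
      refine ⟨(i, w), ?_, rfl⟩
      rw [Finset.mem_product, mem_Wle]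
      refine ⟨Finset.mem_univ _, ?_⟩
      simp only [List.length_cons] at h
      show w.length ≤ m
      omega
  · rintro (h | ⟨⟨i, w'⟩, h, rfl⟩)
    · rw [h]
      simp
    · rw [Finset.mem_product, mem_Wle] at h
      simp only [List.length_cons]
      have := h.2
      simp only at this
      omega

theorem sn_succ (m : ℕ) (v : XS n) : sn (m + 1) v =
    ip v v + ∑ w ∈ Wle m, ∑ i, ip (Ld i (Wd w v)) (Ld i (Wd w v)) := by
  rw [sn_eq, Wle_succ, Finset.sum_insert]
  · rw [Finset.sum_image]
    · rw [Finset.sum_product_right]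
      rfl
    · rintro ⟨i, w⟩ _ ⟨j, w'⟩ _ h
      simp only [List.cons.injEq] at h
      rw [h.1, h.2]
  · intro h
    rw [Finset.mem_image] at h
    obtain ⟨p, -, hp⟩ := h
    exact List.cons_ne_nil _ _ hp

theorem ip_self_le_sn (m : ℕ) (v : XS n) : ip v v ≤ sn m v := by
  have := ip_Wd_le (m := m) (w := []) (by simp) v
  simpa using this

theorem sn_sum_le {ι : Type} (m : ℕ) (s : Finset ι) (f : ι → XS n) :
    sn m (∑ i ∈ s, f i) ≤ 2 ^ s.card * ∑ i ∈ s, sn m (f i) := by
  classical
  induction s using Finset.induction_on with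
  | empty => simp [sn]
  | insert a s ha ih =>
    rw [Finset.sum_insert ha, Finset.sum_insert ha, Finset.card_insert_of_notMem ha]
    refine (sn_add_le m _ _).trans ?_
    have h1 := sn_nonneg m (f a)
    have h2 : (1:ℝ) ≤ 2 ^ s.card := one_le_pow₀ (by norm_num)
    have h3 : (2:ℝ) ^ (s.card + 1) * (sn m (f a) + ∑ i ∈ s, sn m (f i)) =
        2 * (2 ^ s.card * sn m (f a) + 2 ^ s.card * ∑ i ∈ s, sn m (f i)) := by ring
    rw [h3]
    have h4 : sn m (f a) ≤ 2 ^ s.card * sn m (f a) := le_mul_of_one_le_left h1 h2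
    linarith

theorem ell : G_ELL := by
  intro hSOB hA hB n m hm lam hlam L
  obtain ⟨ha1, ha2, ha3, -⟩ := hA n
  obtain ⟨hb1, -, -⟩ := hB n
  obtain ⟨Ch, hCh⟩ := ha1 m hm
  obtain ⟨Cb, hCb⟩ := ha2 0
  obtain ⟨Cc, hCc⟩ := ha3 m hm
  obtain ⟨Cd, hCd⟩ := hb1 m
  -- nonnegative constants
  set B := |Cb| with hB
  set K := |Cc| with hK
  set D := |Cd| with hD
  set H := |Ch| with hH
  set M := |L| with hM
  have hB0 : 0 ≤ B := abs_nonneg _
  have hK0 : 0 ≤ K := abs_nonneg _
  have hD0 : 0 ≤ D := abs_nonneg _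
  have hH0 : 0 ≤ H := abs_nonneg _
  have hM0 : 0 ≤ M := abs_nonneg _
  set Nw : ℝ := ((Wle m : Finset (List (KK n))).card : ℝ) with hNw
  have hNw0 : 0 ≤ Nw := by positivity
  set N : ℝ := (Fintype.card (KK n) : ℝ) with hN
  have hN0 : 0 < N := by
    rw [hN]
    exact_mod_cast Fintype.card_pos
  set P : ℝ := 2 ^ Fintype.card (KK n) with hP
  have hP0 : 0 < P := by positivity
  set E : ℝ := D * (P * (N * (H * M))) with hE
  have hE0 : 0 ≤ E := by positivity
  set t : ℝ := lam / (2 * (Nw * N * E + 1)) with ht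
  have ht0 : 0 < t := by positivity
  set R : ℝ := 2 * (B * M * D + K * M) with hR
  have hR0 : 0 ≤ R := by positivity
  set C : ℝ := lam + Nw * (N ^ 3 / lam * R) + N / (2 * t) with hC
  refine ⟨C, by positivity, fun a v ha hv hell => ?_⟩
  have hs0 := sn_nonneg m v
  have hs1 := sn_nonneg (m + 1) v
  set A : ℝ := ∑ p, ∑ q, sn m (a p q) with hAd
  have hA0 : 0 ≤ A := Finset.sum_nonneg fun p _ => Finset.sum_nonneg fun q _ => sn_nonneg _ _
  have haA : ∀ p q, sn m (a p q) ≤ A := by
    intro p q
    have h1 : sn m (a p q) ≤ ∑ q, sn m (a p q) :=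
      Finset.single_le_sum (f := fun q => sn m (a p q)) (fun q _ => sn_nonneg _ _)
        (Finset.mem_univ q)
    have h2 : ∑ q, sn m (a p q) ≤ A :=
      Finset.single_le_sum (f := fun p => ∑ q, sn m (a p q))
        (fun p _ => Finset.sum_nonneg fun q _ => sn_nonneg _ _) (Finset.mem_univ p)
    exact h1.trans h2
  have haM : ∀ k ≤ m - 1, ∀ p q, sn k (a p q) ≤ M := fun k hk p q =>
    (sn_mono hk _).trans ((ha p q).trans (le_abs_self L))
  have hvM : ∀ q, sn (m - 2) (Ld q v) ≤ M := by
    intro q
    have h1 := sn_Ld (m - 2) q v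
    have e : m - 2 + 1 = m - 1 := by omega
    rw [e] at h1
    exact h1.trans (hv.trans (le_abs_self L))
  have hv1 : ∀ q, sn (m - 1) (Ld q v) ≤ sn m v := by
    intro q
    have h1 := sn_Ld (m - 1) q v
    have e : m - 1 + 1 = m := by omega
    rwa [e] at h1
  have hv2 : ∀ q, sn m (Ld q v) ≤ sn (m + 1) v := fun q => sn_Ld m q v
  -- bound for each word
  have key : ∀ w ∈ (Wle m : Finset (List (KK n))),
      ip (Wd w v) (Wd w (∑ i, Ld i (∑ k, a i k * Ld k v))) ≤
      -(3 * lam / 4) * (∑ i, ip (Ld i (Wd w v)) (Ld i (Wd w v))) +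
        N ^ 3 / lam * (R * (sn m v + A)) +
        N / (2 * t) * ip (Wd w v) (Wd w v) + N * (t / 2 * (E * (A + sn (m + 1) v))) := by
    intro w hw
    have hwl : w.length ≤ m := mem_Wle.mp hw
    set u := Wd w v with hu
    set f : KK n → XS n := fun i => ∑ k, a i k * Ld k v with hf
    set Kf : KK n → XS n := fun i => Wd w (Ld i (f i)) - Ld i (Wd w (f i)) with hKf
    set r : KK n → KK n → XS n := fun i k => Wd w (a i k * Ld k v) - a i k * Ld k u with hr
    -- remainder bound
    have hrb : ∀ i k, ip (r i k) (r i k) ≤ R * (sn m v + A) := by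
      intro i k
      have e1 : r i k = a i k * (Wd w (Ld k v) - Ld k u) +
          (Wd w (a i k * Ld k v) - a i k * Wd w (Ld k v)) := by
        simp only [hr]
        ring
      have b1 : sn 0 (a i k * (Wd w (Ld k v) - Ld k u)) ≤ B * (M * (D * sn m v)) := by
        have c1 := hCb (a i k) (Wd w (Ld k v) - Ld k u)
        have c2 := hCd w hwl k v
        rw [← sn_zero] at c2
        have c3 : sn (0 + n + 1) (a i k) ≤ M := haM _ (by omega) i k
        have c4 : sn 0 (Wd w (Ld k v) - Ld k u) ≤ D * sn m v :=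
          c2.trans (mul_le_mul_of_nonneg_right (le_abs_self _) hs0)
        calc sn 0 (a i k * (Wd w (Ld k v) - Ld k u))
            ≤ Cb * (sn (0 + n + 1) (a i k) * sn 0 (Wd w (Ld k v) - Ld k u)) := c1
          _ ≤ B * (sn (0 + n + 1) (a i k) * sn 0 (Wd w (Ld k v) - Ld k u)) :=
              mul_le_mul_of_nonneg_right (le_abs_self _)
                (mul_nonneg (sn_nonneg _ _) (sn_nonneg _ _))
          _ ≤ B * (M * (D * sn m v)) := by
              apply mul_le_mul_of_nonneg_left _ hB0
              exact mul_le_mul c3 c4 (sn_nonneg _ _) hM0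
      have b2 : sn 0 (Wd w (a i k * Ld k v) - a i k * Wd w (Ld k v)) ≤
          K * (A * M + M * sn m v) := by
        have c1 := hCc w hwl (a i k) (Ld k v)
        rw [← sn_zero] at c1
        have c3 : sn m (a i k) ≤ A := haA i k
        have c5 : sn (m - 2) (a i k) ≤ M := haM _ (by omega) i k
        have d1 : sn m (a i k) * sn (m - 2) (Ld k v) ≤ A * M :=
          mul_le_mul c3 (hvM k) (sn_nonneg _ _) hA0
        have d2 : sn (m - 2) (a i k) * sn (m - 1) (Ld k v) ≤ M * sn m v :=
          mul_le_mul c5 (hv1 k) (sn_nonneg _ _) hM0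
        have d3 : 0 ≤ sn m (a i k) * sn (m - 2) (Ld k v) +
            sn (m - 2) (a i k) * sn (m - 1) (Ld k v) :=
          add_nonneg (mul_nonneg (sn_nonneg _ _) (sn_nonneg _ _))
            (mul_nonneg (sn_nonneg _ _) (sn_nonneg _ _))
        calc sn 0 (Wd w (a i k * Ld k v) - a i k * Wd w (Ld k v))
            ≤ Cc * (sn m (a i k) * sn (m - 2) (Ld k v) +
                sn (m - 2) (a i k) * sn (m - 1) (Ld k v)) := c1
          _ ≤ K * (sn m (a i k) * sn (m - 2) (Ld k v) +
                sn (m - 2) (a i k) * sn (m - 1) (Ld k v)) :=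
              mul_le_mul_of_nonneg_right (le_abs_self _) d3
          _ ≤ K * (A * M + M * sn m v) := mul_le_mul_of_nonneg_left (add_le_add d1 d2) hK0
      rw [← sn_zero, e1]
      refine (sn_add_le 0 _ _).trans ?_
      have e2 : R * (sn m v + A) = 2 * (B * (M * (D * sn m v)) + K * (A * M + M * sn m v)) +
          2 * (B * M * D) * A := by
        rw [hR]
        ring
      have e3 : 0 ≤ 2 * (B * M * D) * A := by positivity
      rw [e2]
      linarith
    -- bound for the commutator with the outer derivative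
    have hKb : ∀ i, ip (Kf i) (Kf i) ≤ E * (A + sn (m + 1) v) := by
      intro i
      have c2 := hCd w hwl i (f i)
      have c3 : ∀ k, sn m (a i k * Ld k v) ≤ H * M * (A + sn (m + 1) v) := by
        intro k
        have d1 := hCh (a i k) (Ld k v)
        have d2 : sn m (a i k) * sn (m - 2) (Ld k v) ≤ A * M :=
          mul_le_mul (haA i k) (hvM k) (sn_nonneg _ _) hA0
        have d3 : sn (m - 2) (a i k) * sn m (Ld k v) ≤ M * sn (m + 1) v :=
          mul_le_mul (haM _ (by omega) i k) (hv2 k) (sn_nonneg _ _) hM0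
        have d4 : 0 ≤ sn m (a i k) * sn (m - 2) (Ld k v) +
            sn (m - 2) (a i k) * sn m (Ld k v) :=
          add_nonneg (mul_nonneg (sn_nonneg _ _) (sn_nonneg _ _))
            (mul_nonneg (sn_nonneg _ _) (sn_nonneg _ _))
        calc sn m (a i k * Ld k v)
            ≤ Ch * (sn m (a i k) * sn (m - 2) (Ld k v) +
                sn (m - 2) (a i k) * sn m (Ld k v)) := d1
          _ ≤ H * (sn m (a i k) * sn (m - 2) (Ld k v) +
                sn (m - 2) (a i k) * sn m (Ld k v)) :=
              mul_le_mul_of_nonneg_right (le_abs_self _) d4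
          _ ≤ H * (A * M + M * sn (m + 1) v) := mul_le_mul_of_nonneg_left (add_le_add d2 d3) hH0
          _ = H * M * (A + sn (m + 1) v) := by ring
      have c4 : sn m (f i) ≤ P * (N * (H * M * (A + sn (m + 1) v))) := by
        refine (sn_sum_le m Finset.univ (fun k => a i k * Ld k v)).trans ?_
        rw [Finset.card_univ]
        refine mul_le_mul_of_nonneg_left ?_ hP0.le
        refine (Finset.sum_le_sum fun k _ => c3 k).trans (le_of_eq ?_)
        rw [Finset.sum_const, nsmul_eq_mul, Finset.card_univ]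
      calc ip (Kf i) (Kf i) ≤ Cd * sn m (f i) := c2
        _ ≤ D * sn m (f i) := mul_le_mul_of_nonneg_right (le_abs_self _) (sn_nonneg _ _)
        _ ≤ D * (P * (N * (H * M * (A + sn (m + 1) v)))) := mul_le_mul_of_nonneg_left c4 hD0
        _ = E * (A + sn (m + 1) v) := by rw [hE]; ring
    -- the identity
    have hid : ip u (Wd w (∑ i, Ld i (f i))) =
        -(∑ i, ∑ k, ip (Ld i u) (a i k * Ld k u)) - (∑ i, ∑ k, ip (Ld i u) (r i k)) +
          ∑ i, ip u (Kf i) := by
      rw [map_sum, map_sum]
      have e1 : ∀ i, ip u (Wd w (Ld i (f i))) =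
          -(∑ k, ip (Ld i u) (a i k * Ld k u)) - (∑ k, ip (Ld i u) (r i k)) + ip u (Kf i) := by
        intro i
        have e2 : Wd w (Ld i (f i)) = Ld i (Wd w (f i)) + Kf i := by
          simp only [hKf]
          abel
        have e3 : ip u (Ld i (Wd w (f i))) = - ip (Ld i u) (Wd w (f i)) := by
          rw [ibp]
          ring
        have e4 : Wd w (f i) = ∑ k, (a i k * Ld k u + r i k) := by
          simp only [hf, hr, map_sum]
          refine Finset.sum_congr rfl fun k _ => ?_
          abel
        rw [e2, map_add, e3, e4, map_sum]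
        simp only [map_add, Finset.sum_add_distrib]
        ring
      rw [Finset.sum_congr rfl fun i _ => e1 i, Finset.sum_add_distrib, Finset.sum_sub_distrib,
        Finset.sum_neg_distrib]
    -- ellipticity
    have hel : lam * ∑ i, ip (Ld i u) (Ld i u) ≤ ∑ i, ∑ k, ip (Ld i u) (a i k * Ld k u) := by
      have e0 : ∀ x y : XS n, ip x y = ip 1 (x * y) := by
        intro x y
        rw [ip_eq, ip_eq, one_mul]
      have e1 : lam * ∑ i, ip (Ld i u) (Ld i u) = ip 1 (lam • ∑ i, Ld i u * Ld i u) := by
        rw [map_smul, smul_eq_mul, map_sum]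
        congr 1
        exact Finset.sum_congr rfl fun i _ => e0 _ _
      have e2 : ∑ i, ∑ k, ip (Ld i u) (a i k * Ld k u) =
          ip 1 (∑ i, ∑ k, Ld i u * (a i k * Ld k u)) := by
        rw [map_sum]
        refine Finset.sum_congr rfl fun i _ => ?_
        rw [map_sum]
        exact Finset.sum_congr rfl fun k _ => e0 _ _
      rw [e1, e2]
      refine ip_mono fun x => ?_
      have h6 := hell u x
      rw [one_val, one_mul, one_mul, smul_val, sum_val, sum_val]
      have e3 : ∑ i, (Ld i u * Ld i u).1 x = ∑ p, (Ld p u).1 x ^ 2 :=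
        Finset.sum_congr rfl fun i _ => by rw [mul_val, pow_two]
      have e4 : ∑ i, (∑ k, Ld i u * (a i k * Ld k u)).1 x =
          ∑ p, ∑ q, (a p q).1 x * (Ld p u).1 x * (Ld q u).1 x := by
        refine Finset.sum_congr rfl fun i _ => ?_
        rw [sum_val]
        refine Finset.sum_congr rfl fun k _ => ?_
        rw [mul_val, mul_val]
        ring
      rw [e3, e4]
      exact h6
    -- the remainder terms
    have hrem : -(∑ i, ∑ k, ip (Ld i u) (r i k)) ≤
        lam / 4 * (∑ i, ip (Ld i u) (Ld i u)) + N ^ 3 / lam * (R * (sn m v + A)) := by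
      have e1 : ∀ i k, -(ip (Ld i u) (r i k)) ≤
          lam / (4 * N) * ip (Ld i u) (Ld i u) + N / lam * (R * (sn m v + A)) := by
        intro i k
        have y1 := young (lam / (2 * N)) (by positivity) (Ld i u) (r i k)
        have y2 := neg_abs_le (ip (Ld i u) (r i k))
        have y3 : 1 / (2 * (lam / (2 * N))) = N / lam := by
          field_simp
        have y4 : lam / (2 * N) / 2 = lam / (4 * N) := by
          field_simp
          norm_num
        rw [y3, y4] at y1
        have y5 := mul_le_mul_of_nonneg_left (hrb i k) (by positivity : 0 ≤ N / lam)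
        linarith
      calc -(∑ i, ∑ k, ip (Ld i u) (r i k)) = ∑ i, ∑ k, -(ip (Ld i u) (r i k)) := by
            simp only [Finset.sum_neg_distrib]
        _ ≤ ∑ i : KK n, ∑ k : KK n,
              (lam / (4 * N) * ip (Ld i u) (Ld i u) + N / lam * (R * (sn m v + A))) :=
            Finset.sum_le_sum fun i _ => Finset.sum_le_sum fun k _ => e1 i k
        _ = _ := by
            have z1 : ∀ i : KK n, ∑ k : KK n,
                (lam / (4 * N) * ip (Ld i u) (Ld i u) + N / lam * (R * (sn m v + A))) =
                lam / 4 * ip (Ld i u) (Ld i u) + N * (N / lam * (R * (sn m v + A))) := by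
              intro i
              rw [Finset.sum_const, nsmul_eq_mul, Finset.card_univ, ← hN]
              field_simp
            rw [Finset.sum_congr rfl fun i _ => z1 i, Finset.sum_add_distrib, ← Finset.mul_sum,
              Finset.sum_const, nsmul_eq_mul, Finset.card_univ, ← hN]
            ring
    have hK3 : ∑ i, ip u (Kf i) ≤
        N / (2 * t) * ip u u + N * (t / 2 * (E * (A + sn (m + 1) v))) := by
      have e1 : ∀ i, ip u (Kf i) ≤ 1 / (2 * t) * ip u u + t / 2 * (E * (A + sn (m + 1) v)) := by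
        intro i
        have y1 := young t ht0 (Kf i) u
        rw [ip_comm (Kf i) u] at y1
        have y2 := le_abs_self (ip u (Kf i))
        have y5 := mul_le_mul_of_nonneg_left (hKb i) (by positivity : 0 ≤ t / 2)
        linarith
      calc ∑ i, ip u (Kf i) ≤ ∑ i : KK n,
            (1 / (2 * t) * ip u u + t / 2 * (E * (A + sn (m + 1) v))) :=
            Finset.sum_le_sum fun i _ => e1 i
        _ = _ := by
            rw [Finset.sum_const, nsmul_eq_mul, Finset.card_univ, ← hN]
            ring
    rw [hid]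
    linarith
  -- summation
  rw [bf_apply]
  refine (Finset.sum_le_sum key).trans ?_
  have hsum := sn_succ m v
  set S := ∑ w ∈ Wle m, ∑ i, ip (Ld i (Wd w v)) (Ld i (Wd w v)) with hS
  have e1 : ∑ w ∈ (Wle m : Finset (List (KK n))),
      (-(3 * lam / 4) * (∑ i, ip (Ld i (Wd w v)) (Ld i (Wd w v))) +
      N ^ 3 / lam * (R * (sn m v + A)) + N / (2 * t) * ip (Wd w v) (Wd w v) +
        N * (t / 2 * (E * (A + sn (m + 1) v)))) =
      -(3 * lam / 4) * S + Nw * (N ^ 3 / lam * (R * (sn m v + A))) + N / (2 * t) * sn m v +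
        Nw * (N * (t / 2 * (E * (A + sn (m + 1) v)))) := by
    have p1 : ∑ w ∈ Wle m, -(3 * lam / 4) * (∑ i, ip (Ld i (Wd w v)) (Ld i (Wd w v))) =
        -(3 * lam / 4) * S := (Finset.mul_sum _ _ _).symm
    have p2 : ∑ w ∈ (Wle m : Finset (List (KK n))), N ^ 3 / lam * (R * (sn m v + A)) =
        Nw * (N ^ 3 / lam * (R * (sn m v + A))) := by
      rw [Finset.sum_const, nsmul_eq_mul]
    have p3 : ∑ w ∈ Wle m, N / (2 * t) * ip (Wd w v) (Wd w v) = N / (2 * t) * sn m v := by
      rw [← Finset.mul_sum, ← sn_eq]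
    have p4 : ∑ w ∈ (Wle m : Finset (List (KK n))), N * (t / 2 * (E * (A + sn (m + 1) v))) =
        Nw * (N * (t / 2 * (E * (A + sn (m + 1) v)))) := by
      rw [Finset.sum_const, nsmul_eq_mul]
    rw [Finset.sum_add_distrib, Finset.sum_add_distrib, Finset.sum_add_distrib, p1, p2, p3, p4]
  rw [e1]
  have e2 : sn (m + 1) v - sn m v ≤ S := by
    have := ip_self_le_sn m v
    linarith
  have e3 : Nw * (N * (t / 2 * (E * (A + sn (m + 1) v)))) ≤ lam / 4 * (A + sn (m + 1) v) := by
    have e4 : Nw * (N * (t / 2 * (E * (A + sn (m + 1) v)))) =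
        t / 2 * (Nw * N * E) * (A + sn (m + 1) v) := by ring
    have e5 : t / 2 * (Nw * N * E) ≤ lam / 4 := by
      have e6 : t / 2 * (Nw * N * E + 1) = lam / 4 := by
        rw [ht]
        field_simp
        norm_num
      have e7 : Nw * N * E ≤ Nw * N * E + 1 := by linarith
      calc t / 2 * (Nw * N * E) ≤ t / 2 * (Nw * N * E + 1) :=
            mul_le_mul_of_nonneg_left e7 (by positivity)
        _ = lam / 4 := e6
    rw [e4]
    exact mul_le_mul_of_nonneg_right e5 (by positivity)
  have e8 : -(3 * lam / 4) * S ≤ -(3 * lam / 4) * (sn (m + 1) v - sn m v) := by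
    have : 0 ≤ 3 * lam / 4 := by positivity
    nlinarith
  have e9 : C * (sn m v + A) = lam * sn m v + lam * A + Nw * (N ^ 3 / lam * (R * (sn m v + A))) +
      N / (2 * t) * sn m v + N / (2 * t) * A := by
    rw [hC]
    ring
  have e10 : 0 ≤ N / (2 * t) * A := by positivity
  have e11 : 0 ≤ lam * A := by positivity
  have e12 : 0 ≤ lam * sn m v := by positivity
  rw [e9]
  linarith

end Pool.Agent.Helper58.RN
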